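import Pool.Agent.Helper83.Cusp.Pull

/-! The step of the tower (packet C3 of MP_c70db9_ag). -/

namespace Pool.Agent.Helper16.Cusp

open MvPolynomial

namespace StepAux

/-- a fixed cube root -/
noncomputable def rt (z : ℂ) : ℂ := Classical.choose (IsAlgClosed.exists_pow_nat_eq z (n := 3) (by norm_num))

theorem rt_pow (z : ℂ) : rt z ^ 3 = z :=
  Classical.choose_spec (IsAlgClosed.exists_pow_nat_eq z (n := 3) (by norm_num))

theorem rt_ne {z : ℂ} (h : z ≠ 0) : rt z ≠ 0 := by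
  intro h0
  apply h
  rw [← rt_pow z, h0]
  norm_num

theorem rt_zero : rt 0 = 0 := by
  have := rt_pow 0
  exact pow_eq_zero_iff (by norm_num : (3:ℕ) ≠ 0) |>.1 this

theorem om_ne_one : om ≠ 1 := by
  intro h
  have := om_sum
  rw [h] at this
  norm_num at this

theorem om_ne_zero : om ≠ 0 := by
  intro h
  have := om_sum
  rw [h] at this
  norm_num at this

theorem om_sq_ne_one : om ^ 2 ≠ 1 := by
  intro h
  apply om_ne_one
  have h3 := om_pow
  calc om = om ^ 3 := by rw [pow_succ, h, one_mul]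
    _ = 1 := h3

/-- the powers of `om` -/
noncomputable def omp (a : Fin 3) : ℂ := om ^ (a : ℕ)

theorem omp_pow (a : Fin 3) : omp a ^ 3 = 1 := by
  unfold omp
  rw [← pow_mul, mul_comm, pow_mul, om_pow, one_pow]

theorem omp_ne (a : Fin 3) : omp a ≠ 0 := pow_ne_zero _ om_ne_zero

theorem omp_inj {a b : Fin 3} (h : omp a = omp b) : a = b := by
  have h1 := om_ne_one
  have h2 := om_sq_ne_one
  have h0 := om_ne_zero
  unfold omp at h
  have h3 : ∀ m : ℕ, om ^ m = om ^ (m + 1) → False := by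
    intro m hm
    apply h1
    have : om ^ m * om = om ^ m * 1 := by rw [mul_one, ← pow_succ, ← hm]
    exact mul_left_cancel₀ (pow_ne_zero _ h0) this
  have h4 : (om ^ 0 = om ^ 2) → False := by
    intro h; exact h2 (by rw [← h, pow_zero])
  fin_cases a <;> fin_cases b
  · rfl
  · exact (h3 0 h).elim
  · exact (h4 h).elim
  · exact (h3 0 h.symm).elim
  · rfl
  · exact (h3 1 h).elim
  · exact (h4 h.symm).elim
  · exact (h3 1 h.symm).elim
  · rfl

/-- the inverse of the linear change of coordinates -/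
noncomputable def inv (lam mu : ℂ) (w : V) : V := Classical.choose (exists_lin lam mu w)

theorem lin_inv (lam mu : ℂ) (w : V) (i : Fin 3) : eval (inv lam mu w) (lin lam mu i) = w i :=
  Classical.choose_spec (exists_lin lam mu w) i

/-- the points above `w` -/
noncomputable def pt (lam mu : ℂ) (w : V) (x y : ℂ) : V :=
  inv lam mu ![x * rt (w 0), y * rt (w 1), rt (w 2)]

theorem lin_pt0 (lam mu : ℂ) (w : V) (x y : ℂ) : eval (pt lam mu w x y) (lin lam mu 0) = x * rt (w 0) := by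
  rw [pt, lin_inv]; simp

theorem lin_pt1 (lam mu : ℂ) (w : V) (x y : ℂ) : eval (pt lam mu w x y) (lin lam mu 1) = y * rt (w 1) := by
  rw [pt, lin_inv]; simp

theorem lin_pt2 (lam mu : ℂ) (w : V) (x y : ℂ) : eval (pt lam mu w x y) (lin lam mu 2) = rt (w 2) := by
  rw [pt, lin_inv]; simp

theorem phi_pt (lam mu : ℂ) (w : V) {x y : ℂ} (hx : x ^ 3 = 1) (hy : y ^ 3 = 1) :
    phi lam mu (pt lam mu w x y) = w := by
  funext i
  fin_cases i
  · show eval (pt lam mu w x y) (lin lam mu 0) ^ 3 = w 0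
    rw [lin_pt0, mul_pow, hx, rt_pow, one_mul]
  · show eval (pt lam mu w x y) (lin lam mu 1) ^ 3 = w 1
    rw [lin_pt1, mul_pow, hy, rt_pow, one_mul]
  · show eval (pt lam mu w x y) (lin lam mu 2) ^ 3 = w 2
    rw [lin_pt2, rt_pow]

theorem eval_lin0 (lam mu : ℂ) (v : V) : eval v (lin lam mu 0) = v 0 + om * v 1 := by
  simp [lin]

theorem eval_lin1 (lam mu : ℂ) (v : V) : eval v (lin lam mu 1) = om ^ 2 * v 0 + om * v 1 := by
  simp [lin]

theorem eval_lin2 (lam mu : ℂ) (v : V) : eval v (lin lam mu 2) = v 2 + lam * v 0 + mu * v 1 := by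
  simp [lin]

theorem lin_smul (lam mu : ℂ) (t : ℂ) (v : V) (i : Fin 3) :
    eval (t • v) (lin lam mu i) = t * eval v (lin lam mu i) := by
  fin_cases i
  · show eval (t • v) (lin lam mu 0) = t * eval v (lin lam mu 0)
    rw [eval_lin0, eval_lin0]; simp; ring
  · show eval (t • v) (lin lam mu 1) = t * eval v (lin lam mu 1)
    rw [eval_lin1, eval_lin1]; simp; ring
  · show eval (t • v) (lin lam mu 2) = t * eval v (lin lam mu 2)
    rw [eval_lin2, eval_lin2]; simp; ring

theorem phi_smul (lam mu : ℂ) (t : ℂ) (v : V) :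
    phi lam mu (t • v) = t ^ 3 • phi lam mu v := by
  funext i
  simp only [phi, Pi.smul_apply, smul_eq_mul]
  rw [lin_smul, mul_pow]

/-- cubes of the linear forms -/
theorem phi_diff (lam mu : ℂ) (v : V) :
    phi lam mu v 0 - phi lam mu v 1 = 3 * (om - om ^ 2) * (v 0 * v 1 * (v 0 - v 1)) := by
  have h := eval_pull lam mu (X 0 - X 1) v
  rw [pull_diff] at h
  simp at h
  rw [← h]

theorem om_diff : om - om ^ 2 ≠ 0 := by
  intro h
  apply om_ne_one
  have : om * om = om * 1 := by linear_combination -h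
  exact mul_left_cancel₀ om_ne_zero this

theorem coord_ne {lam mu : ℂ} {v : V} (h : phi lam mu v 0 ≠ phi lam mu v 1) :
    v 0 ≠ 0 ∧ v 1 ≠ 0 ∧ v 0 ≠ v 1 := by
  have h1 := phi_diff lam mu v
  refine ⟨?_, ?_, ?_⟩ <;> intro h0 <;> apply h
  · rw [h0] at h1; simp at h1; exact sub_eq_zero.1 h1
  · rw [h0] at h1; simp at h1; exact sub_eq_zero.1 h1
  · rw [h0] at h1; simp at h1; exact sub_eq_zero.1 h1

/-- comparison of two points over proportional base points -/
theorem base_eq {lam mu : ℂ} {w w' : V} {x y x' y' t : ℂ} (hx : x ^ 3 = 1) (hy : y ^ 3 = 1)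
    (hx' : x' ^ 3 = 1) (hy' : y' ^ 3 = 1) (h : pt lam mu w x y = t • pt lam mu w' x' y') :
    w = t ^ 3 • w' := by
  have := congrArg (phi lam mu) h
  rwa [phi_smul, phi_pt _ _ _ hx hy, phi_pt _ _ _ hx' hy'] at this

theorem pt_cmp {lam mu : ℂ} {w : V} {x y x' y' t : ℂ}
    (h : pt lam mu w x y = t • pt lam mu w x' y') :
    x * rt (w 0) = t * (x' * rt (w 0)) ∧ y * rt (w 1) = t * (y' * rt (w 1)) ∧
      rt (w 2) = t * rt (w 2) := by
  refine ⟨?_, ?_, ?_⟩
  · rw [← lin_pt0 lam mu w x y, h, lin_smul, lin_pt0]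
  · rw [← lin_pt1 lam mu w x y, h, lin_smul, lin_pt1]
  · conv_lhs => rw [← lin_pt2 lam mu w x y, h, lin_smul, lin_pt2]

theorem pt_cmp2 {lam mu : ℂ} {w : V} {x y x' y' t : ℂ} (h2 : w 2 ≠ 0)
    (h : pt lam mu w x y = t • pt lam mu w x' y') :
    (w 0 ≠ 0 → x = x') ∧ (w 1 ≠ 0 → y = y') := by
  obtain ⟨h0, h1, h3⟩ := pt_cmp h
  have ht : t = 1 := by
    have : t * rt (w 2) = 1 * rt (w 2) := by rw [← h3, one_mul]
    exact mul_right_cancel₀ (rt_ne h2) this
  subst ht
  rw [one_mul] at h0 h1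
  exact ⟨fun h => mul_right_cancel₀ (rt_ne h) h0, fun h => mul_right_cancel₀ (rt_ne h) h1⟩

theorem pt_cmp1 {lam mu : ℂ} {w : V} {x x' t : ℂ} (h1' : w 1 ≠ 0) (h0' : w 0 ≠ 0)
    (h : pt lam mu w x 1 = t • pt lam mu w x' 1) : x = x' := by
  obtain ⟨h0, h1, -⟩ := pt_cmp h
  have ht : t = 1 := by
    have : t * rt (w 1) = 1 * rt (w 1) := by rw [one_mul] at h1; rw [← h1, one_mul]
    exact mul_right_cancel₀ (rt_ne h1') this
  subst ht
  rw [one_mul] at h0
  exact mul_right_cancel₀ (rt_ne h0') h0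

theorem reindex {ι : Type} [Fintype ι] {n : ℕ} (hn : Fintype.card ι = n) {c : ι → V}
    (hc : ProjInj c) {P : V → Prop} (hP : ∀ i, P (c i)) :
    ∃ c' : Fin n → V, ProjInj c' ∧ ∀ i, P (c' i) := by
  let e := (Fintype.equivFinOfCardEq hn).symm
  refine ⟨c ∘ e, ?_, fun i => hP _⟩
  intro i j t h
  exact e.injective (hc _ _ t h)

theorem combine {ι κ : Type} {c : ι → V} {d : κ → V} (hc : ProjInj c) (hd : ProjInj d)
    (h : ∀ i j (t : ℂ), c i ≠ t • d j) (h' : ∀ i j (t : ℂ), d j ≠ t • c i) :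
    ProjInj (Sum.elim c d) := by
  rintro (i | i) (j | j) t hh
  · rw [hc i j t hh]
  · exact absurd hh (h i j t)
  · exact absurd hh (h' j i t)
  · rw [hd i j t hh]

/-- families over base points: a generic injectivity statement -/
theorem fam2 {lam mu : ℂ} {k : ℕ} {c : Fin k → V} (hc : ProjInj c) {J : Type} (x y : J → ℂ)
    (hx : ∀ j, x j ^ 3 = 1) (hy : ∀ j, y j ^ 3 = 1) (h2 : ∀ i, c i 2 ≠ 0)
    (hJ : ∀ i j j', (c i 0 ≠ 0 → x j = x j') → (c i 1 ≠ 0 → y j = y j') → j = j') :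
    ProjInj (fun p : Fin k × J => pt lam mu (c p.1) (x p.2) (y p.2)) := by
  rintro ⟨i, j⟩ ⟨i', j'⟩ t h
  have h1 := base_eq (hx _) (hy _) (hx _) (hy _) h
  have hi := hc _ _ _ h1
  simp only at hi
  subst hi
  have := pt_cmp2 (h2 _) h
  rw [hJ i j j' this.1 this.2]

theorem fam1 {lam mu : ℂ} {k : ℕ} {c : Fin k → V} (hc : ProjInj c) {J : Type} (x : J → ℂ)
    (hx : ∀ j, x j ^ 3 = 1) (h1' : ∀ i, c i 1 ≠ 0) (h0' : ∀ i, c i 0 ≠ 0)
    (hJ : ∀ j j', x j = x j' → j = j') :
    ProjInj (fun p : Fin k × J => pt lam mu (c p.1) (x p.2) 1) := by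
  rintro ⟨i, j⟩ ⟨i', j'⟩ t h
  have h1 := base_eq (hx _) (one_pow 3) (hx _) (one_pow 3) h
  have hi := hc _ _ _ h1
  simp only at hi
  subst hi
  rw [hJ j j' (pt_cmp1 (h1' _) (h0' _) h)]

/-- homogeneity -/
theorem homog_smul {F : R} {D : ℕ} (hF : F.IsHomogeneous D) (t : ℂ) (v : V) :
    eval (t • v) F = t ^ D * eval v F := by
  rw [eval_eq', eval_eq', Finset.mul_sum]
  apply Finset.sum_congr rfl
  intro d hd
  have hdeg := hF (mem_support_iff.1 hd)
  have hdeg' : ∑ i, d i = D := by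
    rw [← hdeg]
    simp [Finsupp.weight_apply, Finsupp.sum_fintype]
  have : ∏ i, (t • v) i ^ d i = t ^ D * ∏ i, v i ^ d i := by
    rw [← hdeg', ← Finset.prod_pow_eq_pow_sum, ← Finset.prod_mul_distrib]
    apply Finset.prod_congr rfl
    intro i _
    rw [Pi.smul_apply, smul_eq_mul, mul_pow]
  rw [this]
  ring

theorem tan_family {F : R} {T : ℕ} {Q : V → Prop} (lam mu : ℂ) {c : Fin T → V} (hc : ProjInj c)
    (hcP : ∀ i, TanT F (X 0 - X 1) (c i) ∧ c i 0 ≠ 0 ∧ c i 1 ≠ 0 ∧
      c i 2 ≠ 0 ∧ c i 0 = c i 1 ∧ Q (c i)) (e : ℂ) (he : e ^ 3 = 1) (P : V → Prop)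
    (hP : ∀ v : V, TanT (pull lam mu F) (C (3 * (om - om ^ 2)) * (X 0 * X 1 * (X 0 - X 1))) v →
      Q (phi lam mu v) → v 0 + om * v 1 = e * (om ^ 2 * v 0 + om * v 1) →
      om ^ 2 * v 0 + om * v 1 ≠ 0 → P v) :
    ∃ c' : Fin (3 * T) → V, ProjInj c' ∧ ∀ i, P (c' i) := by
  let f : Fin T × Fin 3 → V := fun p => pt lam mu (c p.1) (e * omp p.2) (omp p.2)
  have e3 : ∀ a : Fin 3, (e * omp a) ^ 3 = 1 := fun a => by
    rw [mul_pow, he, omp_pow, one_mul]
  have i0 : ProjInj f := fam2 hc (fun j : Fin 3 => e * omp j) (fun j => omp j)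
      (fun j => e3 j) (fun j => omp_pow _) (fun i => (hcP i).2.2.2.1)
      (fun i j j' h h' => omp_inj (h' (hcP i).2.2.1))
  have g0 : ∀ p, phi lam mu (f p) = c p.1 := fun p => phi_pt _ _ _ (e3 _) (omp_pow _)
  refine reindex (P := P) ?_ i0 ?_
  · simp only [Fintype.card_prod, Fintype.card_fin]
    ring
  · intro p
    obtain ⟨h1, h2, h3, h4, h5, h6⟩ := hcP p.1
    have hl : ∀ i, eval (f p) (lin lam mu i) ≠ 0 := by
      intro i h0
      have : c p.1 i = 0 := by
        rw [← g0 p]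
        show eval (f p) (lin lam mu i) ^ 3 = 0
        rw [h0]; norm_num
      fin_cases i
      · exact h2 this
      · exact h3 this
      · exact h4 this
    apply hP
    · rw [← pull_diff lam mu]
      apply TanT.pull hl
      rw [g0 p]; exact h1
    · rw [g0 p]; exact h6
    · rw [← eval_lin0 lam mu, ← eval_lin1 lam mu]
      rw [lin_pt0, lin_pt1, h5]; ring
    · rw [← eval_lin1 lam mu]; exact hl 1

end StepAux

open StepAux

theorem step {F : R} {D κ T τ : ℕ} {Q Q' : V → Prop} {lam mu : ℂ} (hF : Lev F D κ T Q)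
    (hz : TZ F τ Q) (hQ : ∀ v v' : V, Q v → phi lam mu v' = v → v' 2 ≠ 0 ∧ Q' v')
    (hs : eval ![-1, -1, (lam + mu) ^ 3] F ≠ 0) :
    Lev (pull lam mu F) (3 * D) (9 * κ + 6 * T + 3 * τ) (3 * T) Q' := by
  have hom3 : om ^ 3 = 1 := om_pow
  have homs := om_sum
  refine ⟨pull_homog hF.homog, ?_, ?_, ?_, ?_, ?_⟩
  · -- smooth
    intro v hv hv01 hev
    rw [eval_pull] at hev
    set w := phi lam mu v with hw
    have e0 : eval v (lin lam mu 0) = - om ^ 2 * v 0 := by
      rw [eval_lin0, ← hv01]; linear_combination (v 0) * homs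
    have e1 : eval v (lin lam mu 1) = - v 0 := by
      rw [eval_lin1, ← hv01]; linear_combination (v 0) * homs
    have e2 : eval v (lin lam mu 2) = v 2 + (lam + mu) * v 0 := by
      rw [eval_lin2, ← hv01]; ring
    have w0 : w 0 = - (v 0) ^ 3 := by
      show eval v (lin lam mu 0) ^ 3 = _
      rw [e0]; linear_combination (-(v 0)^3 * (om ^ 3 + 1)) * hom3
    have w1 : w 1 = - (v 0) ^ 3 := by
      show eval v (lin lam mu 1) ^ 3 = _
      rw [e1]; ring
    have w2 : w 2 = (v 2 + (lam + mu) * v 0) ^ 3 := by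
      show eval v (lin lam mu 2) ^ 3 = _
      rw [e2]
    have wne : w ≠ 0 := by
      intro h0
      have a0 : v 0 = 0 := by
        have : w 0 = 0 := by rw [h0]; rfl
        rw [w0] at this
        simpa using this
      have a2 : v 2 = 0 := by
        have : w 2 = 0 := by rw [h0]; rfl
        rw [w2, a0] at this
        simpa using this
      apply hv
      funext i
      fin_cases i
      · exact a0
      · show v 1 = 0
        rw [← hv01, a0]
      · exact a2
    obtain ⟨b0, b2, b3⟩ := hF.smooth w wne (by rw [w0, w1]) hev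
    have s0 : v 0 ≠ 0 := by
      intro h; apply b0; rw [w0, h]; simp
    have z0 : v 2 + (lam + mu) * v 0 ≠ 0 := by
      intro h; apply b2; rw [w2, h]; simp
    refine ⟨s0, ?_, ?_⟩
    · intro h2
      have hh : w = (v 0) ^ 3 • ![-1, -1, (lam + mu) ^ 3] := by
        funext i
        fin_cases i
        · show w 0 = _
          rw [w0]; simp
        · show w 1 = _
          rw [w1]; simp
        · show w 2 = _
          rw [w2, h2]; simp; ring
      rw [hh, homog_smul hF.homog] at hev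
      rcases mul_eq_zero.1 hev with h | h
      · exact pow_ne_zero _ (pow_ne_zero _ s0) h
      · exact hs h
    · apply pull_grad _ b3
      intro i
      fin_cases i
      · show eval v (lin lam mu 0) ≠ 0
        rw [e0]
        exact mul_ne_zero (neg_ne_zero.2 (pow_ne_zero _ om_ne_zero)) s0
      · show eval v (lin lam mu 1) ≠ 0
        rw [e1]; exact neg_ne_zero.2 s0
      · show eval v (lin lam mu 2) ≠ 0
        rw [e2]; exact z0
  · -- cusps
    obtain ⟨c, hc, hcP⟩ := hF.cusp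
    obtain ⟨cx, hx, hxP⟩ := hF.tx
    obtain ⟨cy, hy, hyP⟩ := hF.ty
    obtain ⟨cz, hzz, hzP⟩ := hz
    let P : V → Prop := fun v => CuspT (pull lam mu F) v ∧ v 0 ≠ 0 ∧ v 1 ≠ 0 ∧ v 2 ≠ 0 ∧
      v 0 ≠ v 1 ∧ Q' v
    let f0 : Fin κ × (Fin 3 × Fin 3) → V := fun p => pt lam mu (c p.1) (omp p.2.1) (omp p.2.2)
    let f1 : Fin T × Fin 3 → V := fun p => pt lam mu (cx p.1) 1 (omp p.2)
    let f2 : Fin T × Fin 3 → V := fun p => pt lam mu (cy p.1) (omp p.2) 1
    let f3 : Fin τ × Fin 3 → V := fun p => pt lam mu (cz p.1) (omp p.2) 1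
    have one3 : (1 : ℂ) ^ 3 = 1 := one_pow 3
    have i0 : ProjInj f0 := fam2 hc (fun j : Fin 3 × Fin 3 => omp j.1) (fun j => omp j.2)
      (fun j => omp_pow _) (fun j => omp_pow _) (fun i => (hcP i).2.2.2.1)
      (fun i j j' h h' => Prod.ext (omp_inj (h (hcP i).2.1)) (omp_inj (h' (hcP i).2.2.1)))
    have i1 : ProjInj f1 := fam2 hx (fun j : Fin 3 => 1) (fun j => omp j)
      (fun j => one3) (fun j => omp_pow _) (fun i => (hxP i).2.2.2.1)
      (fun i j j' h h' => omp_inj (h' (hxP i).2.2.1))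
    have i2 : ProjInj f2 := fam2 hy (fun j : Fin 3 => omp j) (fun j => 1)
      (fun j => omp_pow _) (fun j => one3) (fun i => (hyP i).2.2.2.1)
      (fun i j j' h h' => omp_inj (h (hyP i).2.1))
    have i3 : ProjInj f3 := fam1 hzz (fun j : Fin 3 => omp j)
      (fun j => omp_pow _) (fun i => (hzP i).2.2.1) (fun i => (hzP i).2.1)
      (fun j j' h => omp_inj h)
    have g0 : ∀ p, phi lam mu (f0 p) = c p.1 := fun p => phi_pt _ _ _ (omp_pow _) (omp_pow _)
    have g1 : ∀ p, phi lam mu (f1 p) = cx p.1 := fun p => phi_pt _ _ _ one3 (omp_pow _)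
    have g2 : ∀ p, phi lam mu (f2 p) = cy p.1 := fun p => phi_pt _ _ _ (omp_pow _) one3
    have g3 : ∀ p, phi lam mu (f3 p) = cz p.1 := fun p => phi_pt _ _ _ (omp_pow _) one3
    -- a general criterion for non-proportionality
    have cross : ∀ {v v' w w' : V} {t : ℂ} (a b : Fin 3), phi lam mu v = w → phi lam mu v' = w' →
        w a ≠ 0 → w' a = 0 → w' b ≠ 0 → (v ≠ t • v') ∧ (v' ≠ t • v) := by
      intro v v' w w' t a b hv hv' ha ha' hb
      refine ⟨?_, ?_⟩
      · intro h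
        apply ha
        rw [← hv, h, phi_smul, hv', Pi.smul_apply, ha', smul_zero]
      · intro h
        have h1 : w' = t ^ 3 • w := by rw [← hv', h, phi_smul, hv]
        have h2 : t ^ 3 * w a = 0 := by
          have := congrFun h1 a
          rw [ha', Pi.smul_apply, smul_eq_mul] at this
          exact this.symm
        rcases mul_eq_zero.1 h2 with h3 | h3
        · apply hb
          rw [h1, h3, Pi.smul_apply, zero_smul]
        · exact ha h3
    have j01 : ∀ p q (t : ℂ), f0 p ≠ t • f1 q ∧ f1 q ≠ t • f0 p := fun p q t =>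
      cross 0 1 (g0 p) (g1 q) (hcP _).2.1 (hxP _).2.1 (hxP _).2.2.1
    have j02 : ∀ p q (t : ℂ), f0 p ≠ t • f2 q ∧ f2 q ≠ t • f0 p := fun p q t =>
      cross 1 0 (g0 p) (g2 q) (hcP _).2.2.1 (hyP _).2.2.1 (hyP _).2.1
    have j03 : ∀ p q (t : ℂ), f0 p ≠ t • f3 q ∧ f3 q ≠ t • f0 p := fun p q t =>
      cross 2 0 (g0 p) (g3 q) (hcP _).2.2.2.1 (hzP _).2.2.2.1 (hzP _).2.1
    have j12 : ∀ p q (t : ℂ), f1 p ≠ t • f2 q ∧ f2 q ≠ t • f1 p := fun p q t =>
      cross 1 0 (g1 p) (g2 q) (hxP _).2.2.1 (hyP _).2.2.1 (hyP _).2.1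
    have j13 : ∀ p q (t : ℂ), f1 p ≠ t • f3 q ∧ f3 q ≠ t • f1 p := fun p q t =>
      cross 2 0 (g1 p) (g3 q) (hxP _).2.2.2.1 (hzP _).2.2.2.1 (hzP _).2.1
    have j23 : ∀ p q (t : ℂ), f2 p ≠ t • f3 q ∧ f3 q ≠ t • f2 p := fun p q t =>
      cross 2 0 (g2 p) (g3 q) (hyP _).2.2.2.1 (hzP _).2.2.2.1 (hzP _).2.1
    have k23 : ProjInj (Sum.elim f2 f3) :=
      combine i2 i3 (fun i j t => (j23 i j t).1) (fun i j t => (j23 i j t).2)
    have k123 : ProjInj (Sum.elim f1 (Sum.elim f2 f3)) := by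
      apply combine i1 k23
      · rintro i (j | j) t
        · exact (j12 i j t).1
        · exact (j13 i j t).1
      · rintro i (j | j) t
        · exact (j12 i j t).2
        · exact (j13 i j t).2
    have k0123 : ProjInj (Sum.elim f0 (Sum.elim f1 (Sum.elim f2 f3))) := by
      apply combine i0 k123
      · rintro i (j | j | j) t
        · exact (j01 i j t).1
        · exact (j02 i j t).1
        · exact (j03 i j t).1
      · rintro i (j | j | j) t
        · exact (j01 i j t).2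
        · exact (j02 i j t).2
        · exact (j03 i j t).2
    have lin_of_phi : ∀ {v w : V} (i : Fin 3), phi lam mu v = w → w i ≠ 0 →
        eval v (lin lam mu i) ≠ 0 := by
      intro v w i h hw h0
      apply hw
      rw [← h]
      show eval v (lin lam mu i) ^ 3 = 0
      rw [h0]; norm_num
    have lin_of_phi0 : ∀ {v w : V} (i : Fin 3), phi lam mu v = w → w i = 0 →
        eval v (lin lam mu i) = 0 := by
      intro v w i h hw
      rw [← h] at hw
      exact pow_eq_zero_iff (by norm_num : (3:ℕ) ≠ 0) |>.1 hw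
    have coords : ∀ {v w : V}, phi lam mu v = w → w 0 ≠ w 1 → v 0 ≠ 0 ∧ v 1 ≠ 0 ∧ v 0 ≠ v 1 := by
      intro v w h hw
      apply coord_ne (lam := lam) (mu := mu)
      rw [h]; exact hw
    have p0 : ∀ p, P (f0 p) := by
      intro p
      obtain ⟨h1, h2, h3, h4, h5, h6⟩ := hcP p.1
      obtain ⟨q1, q2⟩ := hQ _ _ h6 (g0 p)
      obtain ⟨q3, q4, q5⟩ := coords (g0 p) h5
      refine ⟨CuspT.pull ?_ ?_, q3, q4, q1, q5, q2⟩
      · intro i
        apply lin_of_phi i (g0 p)
        fin_cases i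
        · exact h2
        · exact h3
        · exact h4
      · rw [g0 p]; exact h1
    have p1 : ∀ p, P (f1 p) := by
      intro p
      obtain ⟨h1, h2, h3, h4, h6⟩ := hxP p.1
      obtain ⟨q1, q2⟩ := hQ _ _ h6 (g1 p)
      obtain ⟨q3, q4, q5⟩ := coords (g1 p) (by rw [h2]; exact h3.symm)
      refine ⟨TanT.fold (j := 0) (lin_of_phi0 0 (g1 p) h2) ?_ ?_, q3, q4, q1, q5, q2⟩
      · intro i hi
        apply lin_of_phi i (g1 p)
        fin_cases i
        · exact absurd rfl hi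
        · exact h3
        · exact h4
      · rw [g1 p]; exact h1
    have p2 : ∀ p, P (f2 p) := by
      intro p
      obtain ⟨h1, h2, h3, h4, h6⟩ := hyP p.1
      obtain ⟨q1, q2⟩ := hQ _ _ h6 (g2 p)
      obtain ⟨q3, q4, q5⟩ := coords (g2 p) (by rw [h3]; exact h2)
      refine ⟨TanT.fold (j := 1) (lin_of_phi0 1 (g2 p) h3) ?_ ?_, q3, q4, q1, q5, q2⟩
      · intro i hi
        apply lin_of_phi i (g2 p)
        fin_cases i
        · exact h2
        · exact absurd rfl hi
        · exact h4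
      · rw [g2 p]; exact h1
    have p3 : ∀ p, P (f3 p) := by
      intro p
      obtain ⟨h1, h2, h3, h4, h5, h6⟩ := hzP p.1
      obtain ⟨q1, q2⟩ := hQ _ _ h6 (g3 p)
      obtain ⟨q3, q4, q5⟩ := coords (g3 p) h5
      refine ⟨TanT.fold (j := 2) (lin_of_phi0 2 (g3 p) h4) ?_ ?_, q3, q4, q1, q5, q2⟩
      · intro i hi
        apply lin_of_phi i (g3 p)
        fin_cases i
        · exact h2
        · exact h3
        · exact absurd rfl hi
      · rw [g3 p]; exact h1
    refine reindex (P := P) ?_ k0123 ?_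
    · simp only [Fintype.card_sum, Fintype.card_prod, Fintype.card_fin]
      ring
    · rintro (p | p | p | p)
      · exact p0 p
      · exact p1 p
      · exact p2 p
      · exact p3 p
  · -- tangencies with X 0
    obtain ⟨c, hc, hcP⟩ := hF.td
    refine tan_family lam mu hc hcP 1 (by norm_num)
      (fun v => TanT (pull lam mu F) (X 0) v ∧ v 0 = 0 ∧ v 1 ≠ 0 ∧ v 2 ≠ 0 ∧ Q' v) ?_
    intro v ht hq hl hl1
    obtain ⟨q1, q2⟩ := hQ _ v hq rfl
    have h0 : v 0 = 0 := by
      have : (1 - om ^ 2) * v 0 = 0 := by linear_combination hl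
      rcases mul_eq_zero.1 this with h | h
      · exact absurd (sub_eq_zero.1 h).symm om_sq_ne_one
      · exact h
    have h1 : v 1 ≠ 0 := by
      intro h; apply hl1; rw [h0, h]; ring
    refine ⟨TanT.factor (m := C (3 * (om - om ^ 2)) * X 1 * (X 0 - X 1)) ?_ ?_ ?_, h0, h1, q1, q2⟩
    · convert ht using 1
      ring
    · simp [h0]
    · have := om_diff
      simp [h0, h1, this]
  · -- tangencies with X 1
    obtain ⟨c, hc, hcP⟩ := hF.td
    refine tan_family lam mu hc hcP om hom3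
      (fun v => TanT (pull lam mu F) (X 1) v ∧ v 0 ≠ 0 ∧ v 1 = 0 ∧ v 2 ≠ 0 ∧ Q' v) ?_
    intro v ht hq hl hl1
    obtain ⟨q1, q2⟩ := hQ _ v hq rfl
    have h0 : v 1 = 0 := by
      have : (om - om ^ 2) * v 1 = 0 := by linear_combination hl + v 0 * hom3
      rcases mul_eq_zero.1 this with h | h
      · exact absurd h om_diff
      · exact h
    have h1 : v 0 ≠ 0 := by
      intro h; apply hl1; rw [h0, h]; ring
    refine ⟨TanT.factor (m := C (3 * (om - om ^ 2)) * X 0 * (X 0 - X 1)) ?_ ?_ ?_, h1, h0, q1, q2⟩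
    · convert ht using 1
      ring
    · simp [h0]
    · have := om_diff
      simp [h0, h1, this]
  · -- tangencies with X 0 - X 1
    obtain ⟨c, hc, hcP⟩ := hF.td
    refine tan_family lam mu hc hcP (om ^ 2) (by rw [← pow_mul, mul_comm, pow_mul, hom3, one_pow])
      (fun v => TanT (pull lam mu F) (X 0 - X 1) v ∧ v 0 ≠ 0 ∧ v 1 ≠ 0 ∧ v 2 ≠ 0 ∧ v 0 = v 1 ∧
        Q' v) ?_
    intro v ht hq hl hl1
    obtain ⟨q1, q2⟩ := hQ _ v hq rfl
    have h0 : v 0 = v 1 := by
      have : (1 - om) * (v 0 - v 1) = 0 := by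
        linear_combination hl + (om * v 0 + v 1) * hom3
      rcases mul_eq_zero.1 this with h | h
      · exact absurd (sub_eq_zero.1 h).symm om_ne_one
      · exact sub_eq_zero.1 h
    have h1 : v 1 ≠ 0 := by
      intro h; apply hl1; rw [h0, h]; ring
    refine ⟨TanT.factor (m := C (3 * (om - om ^ 2)) * X 0 * X 1) ?_ ?_ ?_, by rw [h0]; exact h1,
      h1, q1, h0, q2⟩
    · convert ht using 1
      ring
    · simp [h0]
    · have := om_diff
      simp [h0, h1, this]

end Pool.Agent.Helper16.Cusp
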